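import Pool.Agent.E8helper11.GS.Stm

/-!
# Project GS (MP_0ecee9_nt), piece TLOW
-/

set_option autoImplicit false

open Filter Topology
open scoped Classical

namespace Pool.Agent.E8helper10.GS

open Pool.Agent.E8helper11.GS N0ef6d136

lemma le_t {u : ℕ → ℕ} (h2 : ∀ i, 2 ≤ u i) {x N : ℕ} (h : ∏ i ∈ Finset.range N, u i ≤ x) :
    N ≤ t u x := by
  unfold t
  refine le_csSup ⟨x, ?_⟩ h
  intro k hk
  have hk' : ∏ i ∈ Finset.range k, u i ≤ x := hk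
  have h3 : 2 ^ k ≤ ∏ i ∈ Finset.range k, u i := by
    calc 2 ^ k = ∏ _i ∈ Finset.range k, 2 := by simp
      _ ≤ _ := Finset.prod_le_prod' fun i _ => h2 i
  exact (Nat.lt_two_pow_self.le.trans h3).trans hk'

theorem t_TLOW : S_TLOW := by
  intro m u hu h2 hpos hlo C
  obtain ⟨k0, hk0⟩ := Filter.eventually_atTop.1 hlo
  obtain ⟨D, hD⟩ : ∃ D : ℝ, D = max C 1 := ⟨_, rfl⟩
  have hD1 : 1 ≤ D := by rw [hD]; exact le_max_right _ _
  have hDC : C ≤ D := by rw [hD]; exact le_max_left _ _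
  rw [Filter.eventually_atTop]
  refine ⟨max (k0 ^ 4) ⌈(6 * D + 1) ^ 4⌉₊, fun j hj x hx => ?_⟩
  have hj1 : k0 ^ 4 ≤ j := le_trans (le_max_left _ _) hj
  have hj2 : (6 * D + 1) ^ 4 ≤ (j : ℝ) :=
    (Nat.le_ceil _).trans (by exact_mod_cast le_trans (le_max_right _ _) hj)
  have hj0 : (0 : ℝ) ≤ j := Nat.cast_nonneg j
  -- the fourth root
  obtain ⟨y, hy⟩ : ∃ y : ℝ, y = √(√(j : ℝ)) := ⟨_, rfl⟩
  have hy0 : 0 ≤ y := by rw [hy]; exact Real.sqrt_nonneg _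
  have hy2 : y ^ 2 = √(j : ℝ) := by rw [hy]; exact Real.sq_sqrt (Real.sqrt_nonneg _)
  have hy4 : y ^ 4 = (j : ℝ) := by
    calc y ^ 4 = (y ^ 2) ^ 2 := by ring
      _ = _ := by rw [hy2]; exact Real.sq_sqrt hj0
  have hyD : 6 * D + 1 ≤ y := by
    have h : (6 * D + 1) ^ 4 ≤ y ^ 4 := by rw [hy4]; exact hj2
    exact le_of_pow_le_pow_left₀ (by norm_num) hy0 h
  obtain ⟨s, hs⟩ : ∃ s, s = Nat.sqrt j := ⟨_, rfl⟩
  obtain ⟨r, hr⟩ : ∃ r, r = Nat.sqrt s := ⟨_, rfl⟩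
  have hs1 : s * s ≤ j := by rw [hs]; exact Nat.sqrt_le j
  have hs2 : j < (s + 1) * (s + 1) := by rw [hs]; exact Nat.lt_succ_sqrt j
  have hr1 : r * r ≤ s := by rw [hr]; exact Nat.sqrt_le s
  have hr2 : s < (r + 1) * (r + 1) := by rw [hr]; exact Nat.lt_succ_sqrt s
  have hr4 : j < (r + 1) ^ 4 := by
    have h1 : s + 1 ≤ (r + 1) * (r + 1) := hr2
    calc j < (s + 1) * (s + 1) := hs2
      _ ≤ ((r + 1) * (r + 1)) * ((r + 1) * (r + 1)) := Nat.mul_le_mul h1 h1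
      _ = _ := by ring
  have hry : (r : ℝ) ≤ y := by
    have h1 : r ^ 4 ≤ j := by
      calc r ^ 4 = (r * r) * (r * r) := by ring
        _ ≤ s * s := Nat.mul_le_mul hr1 hr1
        _ ≤ j := hs1
    have h2 : (r : ℝ) ^ 4 ≤ y ^ 4 := by rw [hy4]; exact_mod_cast h1
    exact le_of_pow_le_pow_left₀ (by norm_num) hy0 h2
  have hk0r : k0 ≤ r + 1 := by
    have h1 : k0 ^ 4 < (r + 1) ^ 4 := lt_of_le_of_lt hj1 hr4
    exact (lt_of_pow_lt_pow_left₀ 4 (by omega) h1).le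
  -- the number `N`
  obtain ⟨N, hN⟩ : ∃ N : ℕ, N = ⌈D * y ^ 2⌉₊ := ⟨_, rfl⟩
  have hDy : 0 ≤ D * y ^ 2 := by positivity
  have hN1 : D * y ^ 2 ≤ N := by rw [hN]; exact Nat.le_ceil _
  have hN2 : (N : ℝ) < D * y ^ 2 + 1 := by rw [hN]; exact Nat.ceil_lt_add_one hDy
  have hy1 : 1 ≤ y := by linarith
  have hKN : (r + 2) * N + 1 ≤ j := by
    have h1 : ((r : ℝ) + 2) * N ≤ 3 * y * (2 * D * y ^ 2) := by
      apply mul_le_mul _ _ (Nat.cast_nonneg _) (by positivity)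
      · linarith
      · nlinarith
    have h2 : 3 * y * (2 * D * y ^ 2) + 1 ≤ y ^ 4 := by
      have h3 : (1 : ℝ) ≤ y ^ 3 := one_le_pow₀ hy1
      have h4 : y ^ 3 * (y - 6 * D) ≥ 1 * 1 :=
        mul_le_mul h3 (by linarith) (by norm_num) (by positivity)
      nlinarith
    have h3 : (((r + 2) * N + 1 : ℕ) : ℝ) ≤ (j : ℝ) := by
      push_cast
      linarith
    exact_mod_cast h3
  have hMs : N ≤ Ms m (r + 2) := by
    have h1 : m (r + 1) ≤ Ms m (r + 2) :=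
      Finset.single_le_sum (f := m) (fun _ _ => Nat.zero_le _)
        (Finset.mem_range.2 (by omega : r + 1 < r + 2))
    have h2 := hk0 (r + 1) hk0r
    have h3 : N ≤ (r + 2) * N := Nat.le_mul_of_pos_left N (by omega)
    omega
  have hprod : ∏ i ∈ Finset.range N, u i ≤ x := by
    have h1 : ∏ i ∈ Finset.range N, u i ≤ ∏ _i ∈ Finset.range N, 4 ^ (r + 2) := by
      apply Finset.prod_le_prod' fun i hi => ?_
      exact ((hpos i (r + 2)).2 (lt_of_lt_of_le (Finset.mem_range.1 hi) hMs)).le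
    rw [Finset.prod_const, Finset.card_range, ← pow_mul] at h1
    have h3 : 4 ^ ((r + 2) * N + 1) ≤ 4 ^ j := Nat.pow_le_pow_right (by norm_num) hKN
    rw [pow_succ] at h3
    omega
  have h9 := le_t h2 hprod
  have h10 : (N : ℝ) ≤ (t u x : ℝ) := by exact_mod_cast h9
  calc C * √(j : ℝ) ≤ D * √(j : ℝ) := mul_le_mul_of_nonneg_right hDC (Real.sqrt_nonneg _)
    _ = D * y ^ 2 := by rw [hy2]
    _ ≤ N := hN1
    _ ≤ _ := h10

end Pool.Agent.E8helper10.GS
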